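import Pool.Agent.Y303.RA.Rate

/-!
Growth before a first singular time, in the abstract frame: the acceleration is amplified, and the
`L²` norm of a majorant of the cross term is not integrable.
-/

set_option autoImplicit false
set_option linter.unusedSectionVars false

open MeasureTheory Set Filter Topology
open scoped InnerProductSpace

namespace Pool.Agent.Q219.NS

open Pool.Agent.W795.TQ Pool.Agent.Y303.RA
open H772R2.NSR (Frame prim_cont memLp_ii ae_deriv_of_prim)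

/-- near `0` the power `h ^ (-3/2)` is large -/
theorem pow_large (A : ℝ) : ∃ ε : ℝ, 0 < ε ∧ ε ≤ 1 ∧ ∀ h : ℝ, 0 < h → h < ε →
    A ≤ h ^ (-(3 / 2) : ℝ) := by
  refine ⟨min 1 (1 / (|A| + 1)), lt_min one_pos (by positivity), min_le_left _ _, ?_⟩
  intro h h0 h1
  have h2 : h ≤ 1 := (h1.trans_le (min_le_left _ _)).le
  have h3 : h ≤ 1 / (|A| + 1) := (h1.trans_le (min_le_right _ _)).le
  have h4 : h ^ (-1 : ℝ) ≤ h ^ (-(3 / 2) : ℝ) :=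
    Real.rpow_le_rpow_of_exponent_ge h0 h2 (by norm_num)
  rw [Real.rpow_neg_one] at h4
  have h5 : |A| + 1 ≤ h⁻¹ := by
    rw [le_inv_comm₀ (by positivity) h0]
    rwa [one_div] at h3
  linarith [le_abs_self A]

variable {H K : Type} [NormedAddCommGroup H] [InnerProductSpace ℝ H] [CompleteSpace H]
  [NormedAddCommGroup K] [InnerProductSpace ℝ K] [CompleteSpace K]
  {W : Submodule ℝ (H × K)} {m : H → K} {C ν T τ : ℝ} {F F1 : ℝ → K} {v v1 : ℝ → H}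
  {z z1 : ℝ → K}

theorem sq_pow (κ ν h : ℝ) (hν : 0 < ν) (hh : 0 < h) :
    (κ * ν ^ (5 / 4 : ℝ) * h ^ (-(3 / 4) : ℝ)) ^ 2 = κ ^ 2 * ν ^ (5 / 2 : ℝ) * h ^ (-(3 / 2) : ℝ) := by
  have e1 : (ν ^ (5 / 4 : ℝ)) ^ 2 = ν ^ (5 / 2 : ℝ) := by
    rw [← Real.rpow_natCast, ← Real.rpow_mul hν.le]
    norm_num
  have e2 : (h ^ (-(3 / 4) : ℝ)) ^ 2 = h ^ (-(3 / 2) : ℝ) := by
    rw [← Real.rpow_natCast, ← Real.rpow_mul hh.le]
    norm_num
  rw [mul_pow, mul_pow, e1, e2]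

/-- the acceleration is amplified -/
theorem growth_Λ (Fr : Frame W m C) (hm : Hom W m) (hν : 0 < ν) (hτ : τ ∈ Ioc 0 T)
    (hF : FH T F F1) (hS : ∀ t ∈ Ioo 0 τ, Str W m ν t F v v1 z z1) {κ : ℝ} (hκ : 0 < κ)
    (hrate : ∀ t0 < τ, ¬ ∀ᵐ t ∂(volume.restrict (Ioo t0 τ)),
      ‖v1 t‖ ≤ κ * ν ^ (5 / 4 : ℝ) * (τ - t) ^ (-(3 / 4) : ℝ))
    {δ : ℝ} (hδ : 0 < δ) {s : ℝ} (hs : s ∈ Ico 0 τ) :
    ∃ Mc : ℝ, ∀ Λ : ℝ → ℝ, (∀ t, 0 ≤ Λ t) → (∀ t ∈ Ioo s τ, IntegrableOn Λ (Ioc s t)) →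
      (∀ᵐ t ∂(volume.restrict (Ioo s τ)),
        -⟪m (v1 t), z t⟫_ℝ ≤ (1 - δ) * ν * ‖z1 t‖ ^ 2 + Λ t * ‖v1 t‖ ^ 2) →
      ∀ t0 < τ, ∃ t ∈ Ioo t0 τ, s < t ∧
        3 / 4 * Real.log (1 / (τ - t)) - Mc ≤ ∫ r in s..t, Λ r := by
  obtain ⟨r, hr, dr⟩ := exists_diff hτ.1 hS hs
  have hr0 : r ∈ Ioo 0 τ := ⟨hs.1.trans_lt hr.1, hr.2⟩
  set k : ℝ := ‖v1 r‖ ^ 2 + (∫ s in (0 : ℝ)..T, ‖F1 s‖ ^ 2) / (2 * δ * ν) + 1 with hk
  have hI0 : 0 ≤ ∫ s in (0 : ℝ)..T, ‖F1 s‖ ^ 2 :=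
    intervalIntegral.integral_nonneg (hτ.1.le.trans hτ.2) fun s _ => by positivity
  have hk0 : 0 < k := by positivity
  set c : ℝ := κ ^ 2 * ν ^ (5 / 2 : ℝ) with hc
  have hc0 : 0 < c := by
    have := Real.rpow_pos_of_pos hν (5 / 2 : ℝ)
    positivity
  refine ⟨1 / 2 * Real.log (k / c), ?_⟩
  intro Λ hΛ0 hΛi hΛ t0 ht0
  by_contra hcon
  push Not at hcon
  set t1 : ℝ := max t0 r with ht1
  have ht1τ : t1 < τ := max_lt ht0 hr.2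
  refine hrate t1 ht1τ ?_
  have hss : Ioo t1 τ ⊆ Ioo r τ := Ioo_subset_Ioo_left (le_max_right _ _)
  have hsr : Ioo r τ ⊆ Ioo s τ := Ioo_subset_Ioo_left hr.1.le
  have hΛi' : ∀ t ∈ Ioo r τ, IntegrableOn Λ (Ioc r t) := fun t ht =>
    (hΛi t (hsr ht)).mono_set (Ioc_subset_Ioc_left hr.1.le)
  have hb := bound_Λ Fr hm hν hτ.2 hF hS hr0 dr hδ hΛ0 hΛi'
    (ae_mono (Measure.restrict_mono hsr le_rfl) hΛ)
  filter_upwards [ae_mono (Measure.restrict_mono hss le_rfl) hb,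
    ae_restrict_mem measurableSet_Ioo] with t ht htI
  have htr : r < t := (le_max_right _ _).trans_lt htI.1
  have hh : 0 < τ - t := by linarith [htI.2]
  have hle : ∫ q in r..t, Λ q ≤ ∫ q in s..t, Λ q := by
    rw [intervalIntegral.integral_of_le htr.le, intervalIntegral.integral_of_le (hr.1.trans htr).le]
    exact setIntegral_mono_set (hΛi t ⟨hr.1.trans htr, htI.2⟩) (Eventually.of_forall hΛ0)
      (Ioc_subset_Ioc_left hr.1.le).eventuallyLE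
  have hlt := hcon t ⟨(le_max_left _ _).trans_lt htI.1, htI.2⟩ (hr.1.trans htr)
  have h1 : ‖v1 t‖ ^ 2 ≤ c * (τ - t) ^ (-(3 / 2) : ℝ) := by
    have h2 : 2 * ∫ q in r..t, Λ q ≤ 3 / 2 * Real.log (1 / (τ - t)) - Real.log (k / c) := by
      linarith
    have h3 : Real.exp (3 / 2 * Real.log (1 / (τ - t)) - Real.log (k / c))
        = (τ - t) ^ (-(3 / 2) : ℝ) * (c / k) := by
      rw [Real.exp_sub, Real.exp_log (by positivity), Real.rpow_def_of_pos hh, one_div,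
        Real.log_inv, div_eq_mul_inv, inv_div]
      congr 2
      ring
    calc ‖v1 t‖ ^ 2 ≤ _ := ht
      _ ≤ k * Real.exp (3 / 2 * Real.log (1 / (τ - t)) - Real.log (k / c)) := by
        refine mul_le_mul (by rw [hk]; linarith) (Real.exp_le_exp.2 h2) (Real.exp_pos _).le hk0.le
      _ = c * (τ - t) ^ (-(3 / 2) : ℝ) := by
        rw [h3]
        field_simp
  rw [hc, ← sq_pow κ ν (τ - t) hν hh] at h1
  have h5 : 0 ≤ κ * ν ^ (5 / 4 : ℝ) * (τ - t) ^ (-(3 / 4) : ℝ) := by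
    have := Real.rpow_pos_of_pos hν (5 / 4 : ℝ)
    have := Real.rpow_pos_of_pos hh (-(3 / 4) : ℝ)
    positivity
  exact (pow_le_pow_iff_left₀ (norm_nonneg _) h5 two_ne_zero).1 h1

/-- the square of a majorant of the cross term has a large integral -/
theorem growth_X (Fr : Frame W m C) (hm : Hom W m) (hν : 0 < ν) (hτ : τ ∈ Ioc 0 T)
    (hF : FH T F F1) (hS : ∀ t ∈ Ioo 0 τ, Str W m ν t F v v1 z z1) {κ : ℝ} (hκ : 0 < κ)
    (hrate : ∀ t0 < τ, ¬ ∀ᵐ t ∂(volume.restrict (Ioo t0 τ)),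
      ‖v1 t‖ ≤ κ * ν ^ (5 / 4 : ℝ) * (τ - t) ^ (-(3 / 4) : ℝ))
    {s : ℝ} (hs : s ∈ Ico 0 τ) {X : ℝ → ℝ}
    (hXi : ∀ t ∈ Ioo s τ, IntegrableOn (fun t => X t ^ 2) (Ioc s t))
    (hX : ∀ᵐ t ∂(volume.restrict (Ioo s τ)), -⟪m (v1 t), z t⟫_ℝ ≤ ‖z1 t‖ * X t) :
    ∀ t0 < τ, ∃ t ∈ Ioo t0 τ, s < t ∧
      κ ^ 2 / 2 * ν ^ (7 / 2 : ℝ) * (τ - t) ^ (-(3 / 2) : ℝ) ≤ ∫ r in s..t, X r ^ 2 := by
  obtain ⟨r, hr, dr⟩ := exists_diff hτ.1 hS hs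
  have hr0 : r ∈ Ioo 0 τ := ⟨hs.1.trans_lt hr.1, hr.2⟩
  set k : ℝ := ‖v1 r‖ ^ 2 + (∫ s in (0 : ℝ)..T, ‖F1 s‖ ^ 2) / ν with hk
  set c : ℝ := κ ^ 2 * ν ^ (5 / 2 : ℝ) with hc
  have hc0 : 0 < c := by
    have := Real.rpow_pos_of_pos hν (5 / 2 : ℝ)
    positivity
  obtain ⟨ε, hε, -, hlarge⟩ := pow_large (2 * k / c)
  intro t0 ht0
  by_contra hcon
  push Not at hcon
  set t1 : ℝ := max (max t0 r) (τ - ε) with ht1
  have ht1τ : t1 < τ := max_lt (max_lt ht0 hr.2) (by linarith)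
  refine hrate t1 ht1τ ?_
  have hss : Ioo t1 τ ⊆ Ioo r τ :=
    Ioo_subset_Ioo_left ((le_max_right _ _).trans (le_max_left _ _))
  have hsr : Ioo r τ ⊆ Ioo s τ := Ioo_subset_Ioo_left hr.1.le
  have hXi' : ∀ t ∈ Ioo r τ, IntegrableOn (fun t => X t ^ 2) (Ioc r t) := fun t ht =>
    (hXi t (hsr ht)).mono_set (Ioc_subset_Ioc_left hr.1.le)
  have hb := bound_X Fr hm hν hτ.2 hF hS hr0 dr hXi'
    (ae_mono (Measure.restrict_mono hsr le_rfl) hX)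
  filter_upwards [ae_mono (Measure.restrict_mono hss le_rfl) hb,
    ae_restrict_mem measurableSet_Ioo] with t ht htI
  have htr : r < t := ((le_max_right _ _).trans (le_max_left _ _)).trans_lt htI.1
  have ht0' : t0 < t := ((le_max_left _ _).trans (le_max_left _ _)).trans_lt htI.1
  have htε : τ - ε < t := (le_max_right _ _).trans_lt htI.1
  have hh : 0 < τ - t := by linarith [htI.2]
  have hle : ∫ q in r..t, X q ^ 2 ≤ ∫ q in s..t, X q ^ 2 := by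
    rw [intervalIntegral.integral_of_le htr.le, intervalIntegral.integral_of_le (hr.1.trans htr).le]
    exact setIntegral_mono_set (hXi t ⟨hr.1.trans htr, htI.2⟩)
      (Eventually.of_forall fun q => sq_nonneg _) (Ioc_subset_Ioc_left hr.1.le).eventuallyLE
  have hlt := hcon t ⟨ht0', htI.2⟩ (hr.1.trans htr)
  have hbig := hlarge (τ - t) hh (by linarith)
  have e72 : ν ^ (7 / 2 : ℝ) = ν ^ (5 / 2 : ℝ) * ν := by
    rw [show (7 / 2 : ℝ) = 5 / 2 + 1 by norm_num, Real.rpow_add hν, Real.rpow_one]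
  have h1 : ‖v1 t‖ ^ 2 ≤ c * (τ - t) ^ (-(3 / 2) : ℝ) := by
    have h2 : (∫ q in r..t, X q ^ 2) / ν ≤ c / 2 * (τ - t) ^ (-(3 / 2) : ℝ) := by
      rw [div_le_iff₀ hν]
      calc _ ≤ ∫ q in s..t, X q ^ 2 := hle
        _ ≤ _ := hlt.le
        _ = _ := by rw [e72, hc]; ring
    have h3 : k ≤ c / 2 * (τ - t) ^ (-(3 / 2) : ℝ) := by
      rw [div_le_iff₀ hc0] at hbig
      linarith
    calc ‖v1 t‖ ^ 2 ≤ _ := ht
      _ ≤ c / 2 * (τ - t) ^ (-(3 / 2) : ℝ) + c / 2 * (τ - t) ^ (-(3 / 2) : ℝ) := by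
        rw [hk] at h3
        linarith
      _ = _ := by ring
  rw [hc, ← sq_pow κ ν (τ - t) hν hh] at h1
  have h5 : 0 ≤ κ * ν ^ (5 / 4 : ℝ) * (τ - t) ^ (-(3 / 4) : ℝ) := by
    have := Real.rpow_pos_of_pos hν (5 / 4 : ℝ)
    have := Real.rpow_pos_of_pos hh (-(3 / 4) : ℝ)
    positivity
  exact (pow_le_pow_iff_left₀ (norm_nonneg _) h5 two_ne_zero).1 h1

end Pool.Agent.Q219.NS
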