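import Pool.Agent.Y303.NF.Pub

/-!
Strong solutions for data with a rotational symmetry whose order may depend on the time interval.
-/

set_option autoImplicit false
set_option linter.unusedSectionVars false

open MeasureTheory Set Filter Topology
open scoped InnerProductSpace ENNReal ContDiff

namespace Pool.Agent.Q219.NS

open H772R2.NS H772R2.NS.Pub H772R2.NSR H772R2.NSG
open Pool.Agent.W795.TQ Pool.Agent.Y303.RA Pool.Agent.Y303.NF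

/-- the data on `[0,T]` have a symmetry of sufficiently large order -/
def Sym {Ω : Set E3} (ν ρ R : ℝ) (F F1 : ℝ → L2M Ω) (u0 g0 : L2V Ω) (T : ℝ) (n : ℕ)
    (E Φ B : ℝ) : Prop :=
  0 < n ∧ (∀ x : E3, x ∈ Ω → (rot (2 * Real.pi / n) x : E3) ∈ Ω) ∧
  IsInvariant (Ω := (show Set R3 from Ω)) (2 * Real.pi / n) u0 ∧
  (∀ t ∈ Icc 0 T, IsInvariantForce (Ω := (show Set R3 from Ω)) (2 * Real.pi / n) (F t)) ∧
  0 ≤ E ∧ 0 < B ∧
  ‖u0‖ ^ 2 + (∫ s in (0 : ℝ)..T, ‖F s‖ ^ 2) / ν ≤ E ^ 2 ∧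
  (∀ t ∈ Icc 0 T, ‖F t‖ ≤ Φ) ∧
  17 * ‖g0‖ ^ 2 + (∫ s in (0 : ℝ)..T, ‖F1 s‖ ^ 2) / ν ≤ B ^ 2 ∧
  432 * R ^ 2 * E ^ 2 * (Φ ^ 2 + 2 * ν * E * (B * Real.exp (E ^ 2 / (Real.pi * ρ * ν ^ 2)
      + 1 / 2))) ≤ n ^ 2 * ρ ^ 2 * ν ^ 6

theorem rot_main (hloc : S_loc) (huni : S_uni) {Ω : Set E3} (hΩ : IsOpen Ω)
    (hb : Bornology.IsBounded Ω) {ρ R : ℝ} (hρ : 0 < ρ) (hR : 0 < R)
    (hsub : ∀ x : E3, x ∈ Ω → ρ ^ 2 ≤ axisSq x ∧ axisSq x ≤ R ^ 2)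
    {ν : ℝ} (hν : 0 < ν) {I : Set ℝ} (hI : ∀ T ∈ I, 0 < T)
    {F F1 : ℝ → L2M Ω} (hF : ∀ T ∈ I, FH T F F1)
    {u0 g0 : L2V Ω} {z0 : L2M Ω} (h0 : (u0, z0) ∈ graphW Ω)
    (hg : ∀ φ : E3 → E3, H772R2.NS.IsTest Ω φ → Pub.rhs (Ω := Ω) ν u0 z0 (F 0) φ
      = ∫ x in (show Set R3 from Ω), ⟪L2.fn (Ω := Ω) (E := R3) g0 x, (φ : R3 → R3) x⟫_ℝ)
    (hsym : ∀ T ∈ I, ∃ (n : ℕ) (E Φ B : ℝ), Sym ν ρ R F F1 u0 g0 T n E Φ B) :
    ∃ (u u' : ℝ → L2V Ω) (G G' : ℝ → L2M Ω), u 0 = u0 ∧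
      ∀ T ∈ I, IsStrong (show Set R3 from Ω) ν T F u u' G G' ∧
        ∀ (w : ℝ → L2V Ω) (D : ℝ → L2M Ω),
          AEStronglyMeasurable w (volume.restrict (Ioc 0 T)) →
          (∀ᵐ t ∂(volume.restrict (Ioc 0 T)), (w t, D t) ∈ graphW Ω) →
          MemLp D 2 (volume.restrict (Ioc 0 T)) →
          (∀ φ : E3 → E3, H772R2.NS.IsTest Ω φ → ∀ t ∈ Icc 0 T,
            (∫ x in (show Set R3 from Ω), ⟪L2.fn (Ω := Ω) (E := R3) (w t) x, (φ : R3 → R3) x⟫_ℝ)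
              - (∫ x in (show Set R3 from Ω),
                ⟪L2.fn (Ω := Ω) (E := R3) (w 0) x, (φ : R3 → R3) x⟫_ℝ)
            = ∫ s in (0 : ℝ)..t, Pub.rhs (Ω := Ω) ν (w s) (D s) (F s) φ) →
          (∀ t ∈ Icc 0 T, ‖w t‖ ^ 2 / 2 + ν * (∫ s in (0 : ℝ)..t, ‖D s‖ ^ 2)
            ≤ ‖w 0‖ ^ 2 / 2 + ∫ s in (0 : ℝ)..t, ⟪F s, D s⟫_ℝ) → w 0 = u0 →
          ∀ t ∈ Icc 0 T, w t = u t := by
  have hm : MeasurableSet Ω := hΩ.measurableSet
  have hsub' : ∀ x ∈ Ω, ρ ^ 2 ≤ x 0 ^ 2 + x 1 ^ 2 ∧ x 0 ^ 2 + x 1 ^ 2 ≤ R ^ 2 := by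
    intro x hx
    have := hsub x hx
    rwa [axisSq_eq] at this
  have hcomp : ∀ p ∈ graphW Ω, ⟪F 0 - ν • z0 + tensL u0, p.2⟫_ℝ = ⟪g0, p.1⟫_ℝ := by
    refine compat_ext ?_
    rintro p ⟨φ, k1, k2, k3⟩
    rw [← pub_rhs hm ν (F 0) h0 k3, ← pub_inner (Ω := Ω) g0 k2]
    exact hg φ k1
  obtain ⟨C, Fr⟩ := exists_frame hΩ hb
  have hex : ∀ T ∈ I, ∃ (u u1 : ℝ → L2V Ω) (z z1 : ℝ → L2M Ω),
      Str (graphW Ω) (tensL (Ω := Ω)) ν T F u u1 z z1 ∧ u 0 = u0 := by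
    intro T hT
    obtain ⟨n, E, Φ, B, hn, hrot, hu0, hFs, hE0, hB0, hE, hΦ, hB, hcond⟩ := hsym T hT
    have hrot' : Inv (2 * Real.pi / n) Ω := inv_of hn fun x hx => by
      have h1 := hrot x hx
      rwa [rot_eq] at h1
    have hUu : UI hm hrot' u0 = u0 := by
      apply Lp.ext
      have h1 : ∀ᵐ x ∂(volume.restrict Ω),
          u0 (rotF (2 * Real.pi / n) x) = rotF (2 * Real.pi / n) (u0 x) := by
        filter_upwards [hu0] with x hx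
        rw [← rot_eq, ← rot_eq]
        exact hx
      filter_upwards [UI_coe hm hrot' u0, (mp hm hrot').quasiMeasurePreserving.ae h1] with x k1 k2
      rw [k1]
      have k3 : u0 (rotF (2 * Real.pi / n) (rotF (-(2 * Real.pi / n)) x))
        = rotF (2 * Real.pi / n) (u0 (rotF (-(2 * Real.pi / n)) x)) := k2
      rw [← k3, rotF_neg]
    have hFs' : ∀ t ∈ Icc 0 T, ∀ p ∈ graphW Ω,
        ⟪F t, VI hm hrot' p.2⟫_ℝ = ⟪F t, p.2⟫_ℝ := by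
      intro t ht p hp
      have key := graphW_induction (fun q : L2V Ω × L2M Ω =>
        ⟪F t, VI hm hrot' q.2⟫_ℝ - ⟪F t, q.2⟫_ℝ) (by
          have hc : Continuous fun q : L2V Ω × L2M Ω => VI hm hrot' q.2 :=
            (VI hm hrot').continuous.comp continuous_snd
          exact ((continuous_const.inner hc).sub (continuous_const.inner
            continuous_snd)).continuousOn) (by
        rintro q ⟨φ, k1, k2, k3⟩
        have e1 := hFs t ht φ ((isTest_iff φ).mpr k1)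
        have e2 := pub_inner_jac (Ω := Ω) (F t) k3
        have e3 := pub_inner_jac (Ω := Ω) (F t) (VI_test hm hrot' k1.smooth k3)
        have e4 : (fun y : R3 => rot (2 * Real.pi / n) (φ (rot (-(2 * Real.pi / n)) y)))
            = (rotT (2 * Real.pi / n) φ : E3 → E3) := by
          funext y
          have a1 : (rot (-(2 * Real.pi / n)) y : E3) = rotF (-(2 * Real.pi / n)) y := rot_eq _ _
          have a2 : ∀ w : E3, (rot (2 * Real.pi / n) w : E3) = rotF (2 * Real.pi / n) w :=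
            fun w => rot_eq _ w
          exact (congrArg (fun w : E3 => (rot (2 * Real.pi / n) (φ w) : E3)) a1).trans (a2 _)
        rw [e4] at e1
        have e5 := (e3.symm.trans e1).trans e2
        exact sub_eq_zero.mpr e5) hp
      exact sub_eq_zero.mp key
    obtain ⟨C', v, -, hv0, hv⟩ := nf_mid hloc huni hΩ hb hρ hR hsub' hn hrot' hν (I := {T})
      (fun T' hT' => by rw [hT']; exact hI T hT)
      (fun T' hT' => by rw [hT']; exact hF T hT) h0 hcomp hUu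
      (fun T' hT' => by rw [hT']; exact hFs') hE0
      (fun T' hT' => by rw [hT']; exact hE)
      (fun T' hT' => by rw [hT']; exact hΦ) hB0
      (fun T' hT' => by rw [hT']; exact hB) hcond
    exact ⟨v, deriv v, gz (graphW Ω) v, deriv (gz (graphW Ω) v), hv T rfl, hv0⟩
  obtain ⟨v, hv0, hv⟩ := glue_all huni Fr hν hI
    (fun T hT => prim_cont (hF T hT).memLp (hF T hT).prim) hex
  refine ⟨v, deriv v, gz (graphW Ω) v, deriv (gz (graphW Ω) v), hv0,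
    fun T hT => ⟨strong_of_str hΩ (hI T hT) (hv T hT) (fun _ _ => rfl), ?_⟩⟩
  intro w D h1 h2 h3 h4 h5 hw0
  have hFc : ContinuousOn F (Icc 0 T) := prim_cont (hF T hT).memLp (hF T hT).prim
  have hLH := lh_mid hΩ hFc Fr h1 h2 h3 h4 h5
  exact (huni (L2V Ω) (L2M Ω) (graphW Ω) tensL C ν T T F (w 0) w v
    (deriv v) D (gz (graphW Ω) v) (deriv (gz (graphW Ω) v)) Fr hν (hI T hT)
    le_rfl hFc hLH (hv T hT) (by rw [hv0, hw0])).1

end Pool.Agent.Q219.NS
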