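import Pool.Agent.Q219.NS.Acc
import Pool.Agent.Y303.RA.Conc
import Pool.Agent.W795.ES.Pub

/-!
The turning of the velocity before a first singular time.
-/

set_option autoImplicit false
set_option linter.unusedSectionVars false

open MeasureTheory Set Filter Topology
open scoped InnerProductSpace ENNReal NNReal ContDiff

namespace Pool.Agent.Q219.NS

open H772R2.NS H772R2.NS.Pub H772R2.NSR H772R2.NSG
open Pool.Agent.W795.TQ Pool.Agent.Y303.RA
open Pool.Agent.W795.ES (stretch stretch_eq)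

theorem ae_cover {P : ℝ → Prop} {τ : ℝ} (hτ : 0 < τ)
    (h : ∀ t ∈ Ioo 0 τ, ∀ᵐ s ∂(volume.restrict (Ioc 0 t)), P s) :
    ∀ᵐ s ∂(volume.restrict (Ioo 0 τ)), P s := by
  have h1 : ∀ n : ℕ, ∃ t, t ∈ Ioo 0 τ ∧ τ - 1 / ((n : ℝ) + 1) < t := fun n => by
    have hn : (0 : ℝ) < 1 / ((n : ℝ) + 1) := by positivity
    obtain ⟨t, ht1, ht2⟩ := exists_between (max_lt (by linarith : τ - 1 / ((n : ℝ) + 1) < τ) hτ)
    exact ⟨t, ⟨(le_max_right _ _).trans_lt ht1, ht2⟩, (le_max_left _ _).trans_lt ht1⟩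
  choose t ht1 ht2 using h1
  have hsub : Ioo 0 τ ⊆ ⋃ n, Ioc 0 (t n) := by
    intro s hs
    obtain ⟨n, hn⟩ := exists_nat_one_div_lt (show 0 < τ - s by linarith [hs.2])
    exact mem_iUnion.2 ⟨n, hs.1, by linarith [ht2 n]⟩
  refine ae_mono (Measure.restrict_mono hsub le_rfl) ?_
  exact (ae_restrict_iUnion_iff (fun n => Ioc 0 (t n)) P).2 fun n => h _ (ht1 n)

/-- Young's inequality -/
theorem young {θ a b N S ν : ℝ} (hθ0 : 0 ≤ θ) (hθ1 : θ < 1) (ha : 0 ≤ a) (hb : 0 ≤ b)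
    (hN : 0 ≤ N) (hS : 0 ≤ S) (hν : 0 < ν) :
    a * (N * (b ^ (1 - θ) * (S * a) ^ θ)) ≤ 1 / 2 * ν * a ^ 2
      + (1 - θ) / 2 * S ^ (2 * θ / (1 - θ)) * (1 + θ) ^ ((1 + θ) / (1 - θ))
        * ν ^ (-((1 + θ) / (1 - θ))) * N ^ (2 / (1 - θ)) * b ^ 2 := by
  have h1θ : 0 < 1 - θ := by linarith
  set w1 : ℝ := (1 + θ) / 2 with hw1
  set w2 : ℝ := (1 - θ) / 2 with hw2
  have hw20 : 0 < w2 := by positivity
  set p : ℝ := ν / (1 + θ) with hp
  have hp0 : 0 < p := by positivity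
  set β : ℝ := (N * S ^ θ * p ^ (-w1)) ^ (1 / w2) with hβ
  have hbase : 0 ≤ N * S ^ θ * p ^ (-w1) := by
    have := Real.rpow_nonneg hS θ
    have := (Real.rpow_pos_of_pos hp0 (-w1)).le
    positivity
  have hβ0 : 0 ≤ β := Real.rpow_nonneg hbase _
  have key := Real.geom_mean_le_arith_mean2_weighted (w₁ := w1) (w₂ := w2) (p₁ := p * a ^ 2)
    (p₂ := β * b ^ 2) (by positivity) hw20.le (by positivity) (by positivity)
    (by rw [hw1, hw2]; ring)
  have e1 : (p * a ^ 2) ^ w1 = p ^ w1 * (a * a ^ θ) := by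
    rw [Real.mul_rpow hp0.le (by positivity), ← Real.rpow_natCast, ← Real.rpow_mul ha]
    congr 1
    rw [show ((2 : ℕ) : ℝ) * w1 = 1 + θ by rw [hw1]; push_cast; ring]
    exact Real.rpow_one_add' ha (by positivity)
  have e2 : (β * b ^ 2) ^ w2 = N * S ^ θ * p ^ (-w1) * b ^ (1 - θ) := by
    rw [Real.mul_rpow hβ0 (by positivity), ← Real.rpow_natCast b, ← Real.rpow_mul hb, hβ,
      ← Real.rpow_mul hbase, one_div_mul_cancel hw20.ne', Real.rpow_one]
    congr 2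
    rw [hw2]
    push_cast
    ring
  have e3 : p ^ w1 * p ^ (-w1) = 1 := by
    rw [← Real.rpow_add hp0, add_neg_cancel, Real.rpow_zero]
  have e4 : (S * a) ^ θ = S ^ θ * a ^ θ := Real.mul_rpow hS ha
  have e5 : (p * a ^ 2) ^ w1 * (β * b ^ 2) ^ w2 = a * (N * (b ^ (1 - θ) * (S * a) ^ θ)) := by
    rw [e1, e2, e4]
    calc _ = (p ^ w1 * p ^ (-w1)) * (a * (N * (b ^ (1 - θ) * (S ^ θ * a ^ θ)))) := by ring
      _ = _ := by rw [e3, one_mul]
  have e6 : w1 * (p * a ^ 2) = 1 / 2 * ν * a ^ 2 := by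
    rw [hw1, hp]
    field_simp
  have e7 : w2 * (β * b ^ 2) = (1 - θ) / 2 * S ^ (2 * θ / (1 - θ)) * (1 + θ) ^ ((1 + θ) / (1 - θ))
        * ν ^ (-((1 + θ) / (1 - θ))) * N ^ (2 / (1 - θ)) * b ^ 2 := by
    have f1 : β = N ^ (2 / (1 - θ)) * S ^ (2 * θ / (1 - θ)) * ((1 + θ) ^ ((1 + θ) / (1 - θ))
        * ν ^ (-((1 + θ) / (1 - θ)))) := by
      rw [hβ, Real.mul_rpow (by have := Real.rpow_nonneg hS θ; positivity)
        (Real.rpow_pos_of_pos hp0 _).le, Real.mul_rpow hN (Real.rpow_nonneg hS θ),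
        ← Real.rpow_mul hS, ← Real.rpow_mul hp0.le, hp,
        Real.div_rpow hν.le (by positivity)]
      have g1 : 1 / w2 = 2 / (1 - θ) := by rw [hw2]; field_simp
      have g2 : θ * (1 / w2) = 2 * θ / (1 - θ) := by rw [g1]; ring
      have g3 : -w1 * (2 / (1 - θ)) = -((1 + θ) / (1 - θ)) := by rw [hw1]; ring
      rw [g1, g3, show θ * (2 / (1 - θ)) = 2 * θ / (1 - θ) by ring]
      congr 1
      rw [Real.rpow_neg (by positivity : (0 : ℝ) ≤ 1 + θ), div_inv_eq_mul]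
      ring
    rw [f1]
    ring
  rw [e5, e6, e7] at key
  exact key

/-- an elementary inequality: `3/4 · log (1/h)` beats `c · log (1/h)` for `c < 3/4` -/
theorem log_beat {c M L : ℝ} (hc : c < 3 / 4) : ∃ ε : ℝ, 0 < ε ∧ ∀ h : ℝ, 0 < h → h < ε →
    c * (L + Real.log (1 / h)) < 3 / 4 * Real.log (1 / h) - M := by
  set A : ℝ := (c * L + M) / (3 / 4 - c) with hA
  refine ⟨Real.exp (-A), Real.exp_pos _, ?_⟩
  intro h h0 h1
  have h2 : Real.log h < -A := by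
    rw [← Real.log_exp (-A)]
    exact Real.log_lt_log h0 h1
  rw [one_div, Real.log_inv]
  have hne : (3 / 4 - c) ≠ 0 := (sub_pos.2 hc).ne'
  have h3 : (3 / 4 - c) * A = c * L + M := by
    rw [hA]
    exact mul_div_cancel₀ _ hne
  have h4 : (3 / 4 - c) * Real.log h < (3 / 4 - c) * (-A) :=
    mul_lt_mul_of_pos_left h2 (by linarith)
  nlinarith

theorem turn_mid (hit : S_iter) (hode : S_ode) (htp : S_dtp) (he1 : S_est1) (he2 : S_est2)
    (hloc : S_loc) (huni : S_uni) (hun : S_univ) :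
    ∃ κ : ℝ, 0 < κ ∧
    ∀ (Ω : Set E3), IsOpen Ω → Bornology.IsBounded Ω → ∀ (ν T : ℝ), 0 < ν → 0 < T →
    ∀ (F F' : ℝ → L2M Ω), FH T F F' →
    ∀ (u : ℝ → L2V Ω) (z : ℝ → L2M Ω), AEStronglyMeasurable u (volume.restrict (Ioc 0 T)) →
    (∀ᵐ t ∂(volume.restrict (Ioc 0 T)), (u t, z t) ∈ graphW Ω) →
    MemLp z 2 (volume.restrict (Ioc 0 T)) →
    (∀ φ : E3 → E3, H772R2.NS.IsTest Ω φ → ∀ t ∈ Icc 0 T,
      (∫ x in (show Set R3 from Ω), ⟪L2.fn (Ω := Ω) (E := R3) (u t) x, (φ : R3 → R3) x⟫_ℝ)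
        - (∫ x in (show Set R3 from Ω), ⟪L2.fn (Ω := Ω) (E := R3) (u 0) x, (φ : R3 → R3) x⟫_ℝ)
      = ∫ s in (0 : ℝ)..t, Pub.rhs (Ω := Ω) ν (u s) (z s) (F s) φ) →
    (∀ t ∈ Icc 0 T, ‖u t‖ ^ 2 / 2 + ν * (∫ s in (0 : ℝ)..t, ‖z s‖ ^ 2)
      ≤ ‖u 0‖ ^ 2 / 2 + ∫ s in (0 : ℝ)..t, ⟪F s, z s⟫_ℝ) →
    ∀ z0 : L2M Ω, (u 0, z0) ∈ graphW Ω →
    (∃ h : L2V Ω, ∀ φ : E3 → E3, H772R2.NS.IsTest Ω φ →
      Pub.rhs (Ω := Ω) ν (u 0) z0 (F 0) φ
        = ∫ x in (show Set R3 from Ω), ⟪L2.fn (Ω := Ω) (E := R3) h x, (φ : R3 → R3) x⟫_ℝ) →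
    (∃ u' G1 G', IsStrong (show Set R3 from Ω) ν T F u u' G1 G') ∨
    ∃ τ ∈ Ioc 0 T, (∀ t ∈ Ioo 0 τ, ∃ u' G1 G', IsStrong (show Set R3 from Ω) ν t F u u' G1 G') ∧
      ∃ D : ℝ → L2M Ω,
      (∀ᵐ t ∂(volume.restrict (Ioo 0 τ)), HasDerivAt u (deriv u t) t ∧
        (deriv u t, D t) ∈ graphW Ω) ∧
      (∀ t0 < τ, ¬ ∀ᵐ t ∂(volume.restrict (Ioo t0 τ)),
        ‖deriv u t‖ ≤ κ * ν ^ (5 / 4 : ℝ) * (τ - t) ^ (-(3 / 4) : ℝ)) ∧
      (∀ δ : ℝ, 0 < δ → ∀ s ∈ Ico 0 τ, ∃ Mc : ℝ, ∀ Λ : ℝ → ℝ, (∀ t, 0 ≤ Λ t) →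
        (∀ t ∈ Ioo s τ, IntegrableOn Λ (Ioc s t)) →
        (∀ᵐ t ∂(volume.restrict (Ioo s τ)),
          -stretch (Ω := (show Set R3 from Ω)) (z t) (deriv u t)
            ≤ (1 - δ) * ν * ‖D t‖ ^ 2 + Λ t * ‖deriv u t‖ ^ 2) →
        ∀ t0 < τ, ∃ t ∈ Ioo t0 τ, s < t ∧
          3 / 4 * Real.log (1 / (τ - t)) - Mc ≤ ∫ r in s..t, Λ r) ∧
      (∀ s ∈ Ico 0 τ, ∀ t0 < τ, ∃ t ∈ Ioo t0 τ, s < t ∧
        κ ^ 2 / 2 * ν ^ (7 / 2 : ℝ) * (τ - t) ^ (-(3 / 2) : ℝ)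
          ≤ ∫ r in s..t, crs (u r) (deriv u r)) ∧
      (∀ q : ℝ≥0∞, 3 < q → ∀ θ : ℝ, θ = (3 / q).toReal → ∀ s ∈ Ico 0 τ, ∃ Mc : ℝ,
        ∀ (w : ℝ → E3 → ℝ) (B : ℝ → ℝ), (∀ t, 0 ≤ B t) →
        (∀ t ∈ Ioo s τ, IntegrableOn (fun r => B r ^ (2 / (1 - θ))) (Ioc s t)) →
        (∀ᵐ t ∂(volume.restrict (Ioo s τ)),
          AEStronglyMeasurable (w t) (volume.restrict Ω) ∧
          eLpNorm (w t) q (volume.restrict Ω) ≤ ENNReal.ofReal (B t) ∧
          ∀ᵐ x ∂(volume.restrict Ω), ‖u t x‖ ^ 2 * ‖deriv u t x‖ ^ 2 - ⟪u t x, deriv u t x⟫_ℝ ^ 2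
            ≤ (w t x) ^ 2 * ‖deriv u t x‖ ^ 2) →
        ∀ t0 < τ, ∃ t ∈ Ioo t0 τ, s < t ∧
          3 / 4 * Real.log (1 / (τ - t)) - Mc ≤
            (1 - θ) / 2 * (CS : ℝ) ^ (2 * θ / (1 - θ)) * (1 + θ) ^ ((1 + θ) / (1 - θ))
              * ν ^ (-((1 + θ) / (1 - θ))) * ∫ r in s..t, B r ^ (2 / (1 - θ))) ∧
      (∀ b : ℝ, b < 3 → ∀ t0 < τ, ¬ ∀ᵐ t ∂(volume.restrict (Ioo t0 τ)),
        ∀ᵐ x ∂(volume.restrict Ω), ‖u t x‖ ^ 2 * ‖deriv u t x‖ ^ 2 - ⟪u t x, deriv u t x⟫_ℝ ^ 2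
            ≤ b * ν / (τ - t) * ‖deriv u t x‖ ^ 2) := by
  obtain ⟨c, hc, hU⟩ := hun
  obtain ⟨κ, hκ, hrate⟩ := rate hit hode htp he1 he2 hloc huni c hc
  refine ⟨κ, hκ, ?_⟩
  intro Ω hΩ hb ν T hν hT F F' hF u z hmeas hmem hz2 heqn hen z0 h0 hg
  obtain ⟨C, Fr⟩ := exists_frame hΩ hb
  obtain ⟨g0, hg0⟩ := hg
  have hm : MeasurableSet Ω := hΩ.measurableSet
  have hcomp : ∀ p ∈ graphW Ω, ⟪F 0 - ν • z0 + tensL (u 0), p.2⟫_ℝ = ⟪g0, p.1⟫_ℝ := by
    refine compat_ext ?_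
    rintro p ⟨φ, k1, k2, k3⟩
    rw [← pub_rhs hm ν (F 0) h0 k3, ← pub_inner (Ω := Ω) g0 k2]
    exact hg0 φ k1
  have hFc : ContinuousOn F (Icc 0 T) := prim_cont hF.memLp hF.prim
  have hLH := lh_mid hΩ hFc Fr hmeas hmem hz2 heqn hen
  rcases hrate (L2V Ω) (L2M Ω) (graphW Ω) tensL C ν T F F' (u 0) g0 z0 u z Fr (hU _ hΩ)
    (rellich_W hΩ hb) hν hT hF h0 hcomp hLH with ⟨w, w1, y, y1, k1, k2⟩ | ⟨τ, hτ, hS, hzeq, hr⟩
  · exact Or.inl ⟨w1, y, y1, strong_of_str hΩ hT k1 k2⟩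
  have hmem1 : ∀ᵐ t ∂(volume.restrict (Ioo 0 τ)),
      (deriv u t, deriv (gz (graphW Ω) u) t) ∈ graphW Ω := ae_cover hτ.1 fun t ht => (hS t ht).mem1
  have hmem0 : ∀ t ∈ Ioo 0 τ, (u t, gz (graphW Ω) u t) ∈ graphW Ω := by
    intro t ht
    obtain ⟨t', ht1, ht2⟩ := exists_between ht.2
    exact (hS t' ⟨ht.1.trans ht1, ht2⟩).mem t ⟨ht.1.le, ht1.le⟩
  have hsub : ∀ s : ℝ, 0 ≤ s → Ioo s τ ⊆ Ioo 0 τ := fun s hs => Ioo_subset_Ioo_left hs
  refine Or.inr ⟨τ, hτ, fun t ht => ⟨_, _, _, strong_of_str hΩ ht.1 (hS t ht) fun _ _ => rfl⟩,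
    deriv (gz (graphW Ω) u), ?_, hr, ?_, ?_, ?_, ?_⟩
  · refine ae_cover hτ.1 fun t ht => ?_
    have S := hS t ht
    filter_upwards [ae_deriv_of_prim ht.1 (memLp_ii ht.1.le S.u1m) S.pu, S.mem1] with s h1 h2
    exact ⟨h1, h2⟩
  · intro δ hδ s hs
    obtain ⟨Mc, h⟩ := growth_Λ Fr (hom_tensL hm) hν hτ hF hS hκ hr hδ hs
    refine ⟨Mc, fun Λ hΛ0 hΛi hΛ => h Λ hΛ0 hΛi ?_⟩
    filter_upwards [hΛ, ae_mono (Measure.restrict_mono (hsub s hs.1) le_rfl) hmem1,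
      ae_mono (Measure.restrict_mono (hsub s hs.1) le_rfl) hzeq] with t h1 h2 h3
    have e1 := stretch_eq hm (z t) h2
    rw [← h3]
    exact (le_of_eq (congrArg Neg.neg e1.symm)).trans h1
  · intro s hs
    have hint : ∀ t ∈ Ioo s τ, IntegrableOn (fun r => crs (u r) (deriv u r)) (Ioc s t) := by
      intro t ht
      have ht0 : 0 < t := hs.1.trans_lt ht.1
      have S := hS t ⟨ht0, ht.2⟩
      have hss : (volume.restrict (Ioc s t) : Measure ℝ) ≤ volume.restrict (Ioc 0 t) :=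
        Measure.restrict_mono (Ioc_subset_Ioc_left hs.1) le_rfl
      have hzc : ContinuousOn (gz (graphW Ω) u) (Icc 0 t) := prim_cont S.z1m S.pz
      have huc : ContinuousOn u (Icc 0 t) := prim_cont S.u1m S.pu
      obtain ⟨M, hM⟩ := (isCompact_Icc.image_of_continuousOn hzc.norm).bddAbove
      have hmemt : ∀ᵐ r ∂(volume.restrict (Ioc 0 t)), (u r, gz (graphW Ω) u r) ∈ graphW Ω := by
        filter_upwards [ae_restrict_mem measurableSet_Ioc] with r hr'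
        exact S.mem r ⟨hr'.1.le, hr'.2⟩
      have hmeasc : AEStronglyMeasurable (fun r => crs (u r) (deriv u r))
          (volume.restrict (Ioc 0 t)) :=
        crs_meas hm ((huc.mono Ioc_subset_Icc_self).aestronglyMeasurable measurableSet_Ioc)
          ((hzc.mono Ioc_subset_Icc_self).aestronglyMeasurable measurableSet_Ioc) hmemt
          S.u1m.aestronglyMeasurable S.z1m.aestronglyMeasurable S.mem1
      have hz1 : Integrable (fun r => ‖deriv (gz (graphW Ω) u) r‖ ^ 2)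
          (volume.restrict (Ioc 0 t)) :=
        (memLp_two_iff_integrable_sq_norm S.z1m.aestronglyMeasurable).mp S.z1m
      have : Integrable (fun r => crs (u r) (deriv u r)) (volume.restrict (Ioc 0 t)) := by
        refine (hz1.const_mul (2 * C ^ 2 * M ^ 2)).mono' hmeasc ?_
        filter_upwards [hmemt, S.mem1, ae_restrict_mem measurableSet_Ioc] with r k1 k2 k3
        rw [Real.norm_eq_abs, abs_of_nonneg (crs_nonneg _ _)]
        have h1 := crs_le hm Fr k1 k2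
        have h2 : ‖gz (graphW Ω) u r‖ ≤ M := hM ⟨r, ⟨k3.1.le, k3.2⟩, rfl⟩
        have h3 : ‖gz (graphW Ω) u r‖ ^ 2 ≤ M ^ 2 := pow_le_pow_left₀ (norm_nonneg _) h2 2
        calc _ ≤ 2 * C ^ 2 * (‖gz (graphW Ω) u r‖ ^ 2 * ‖deriv (gz (graphW Ω) u) r‖ ^ 2) := h1
          _ ≤ 2 * C ^ 2 * (M ^ 2 * ‖deriv (gz (graphW Ω) u) r‖ ^ 2) := by gcongr
          _ = _ := by ring
      exact this.mono_measure hss
    have hsq : ∀ r, (√(crs (u r) (deriv u r))) ^ 2 = crs (u r) (deriv u r) := fun r =>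
      Real.sq_sqrt (crs_nonneg _ _)
    obtain ⟨X, hX⟩ : ∃ X : ℝ → ℝ, X = fun r => √(crs (u r) (deriv u r)) := ⟨_, rfl⟩
    have hX2 : (fun r => X r ^ 2) = fun r => crs (u r) (deriv u r) := by
      rw [hX]
      exact funext hsq
    have hint' : ∀ t ∈ Ioo s τ, IntegrableOn (fun r => X r ^ 2) (Ioc s t) := by
      rw [hX2]
      exact hint
    have hXle : ∀ᵐ t ∂(volume.restrict (Ioo s τ)),
        -⟪tensL (deriv u t), gz (graphW Ω) u t⟫_ℝ ≤ ‖deriv (gz (graphW Ω) u) t‖ * X t := by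
      filter_upwards [ae_mono (Measure.restrict_mono (hsub s hs.1) le_rfl) hmem1,
        ae_restrict_mem measurableSet_Ioo] with t h1 h2
      have h3 := tri_le hm h1 (hmem0 t (hsub s hs.1 h2))
      rw [hX]
      exact h3
    intro t0 ht0
    obtain ⟨t, ht, hst, h4⟩ := growth_X Fr (hom_tensL hm) hν hτ hF hS hκ hr hs hint' hXle t0 ht0
    refine ⟨t, ht, hst, h4.trans (le_of_eq ?_)⟩
    exact intervalIntegral.integral_congr fun r _ => congrFun hX2 r
  · intro q hq θ hθ s hs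
    have hq0 : q ≠ 0 := (lt_trans (by norm_num) hq).ne'
    have hθ0 : 0 ≤ θ := by rw [hθ]; exact ENNReal.toReal_nonneg
    have hθ1 : θ < 1 := by
      rw [hθ]
      have h1 : 3 / q < 1 := by
        rw [ENNReal.div_lt_iff (Or.inl hq0) (Or.inr (by norm_num)), one_mul]
        exact hq
      have := (ENNReal.toReal_lt_toReal h1.ne_top ENNReal.one_ne_top).2 h1
      simpa using this
    obtain ⟨Mc, h⟩ := growth_Λ Fr (hom_tensL hm) hν hτ hF hS hκ hr
      (show (0 : ℝ) < 1 / 2 by norm_num) hs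
    refine ⟨Mc, ?_⟩
    intro w B hB0 hBi hwB t0 ht0
    set Kc : ℝ := (1 - θ) / 2 * (CS : ℝ) ^ (2 * θ / (1 - θ)) * (1 + θ) ^ ((1 + θ) / (1 - θ))
      * ν ^ (-((1 + θ) / (1 - θ))) with hKc
    have hKc0 : 0 ≤ Kc := by
      have h1 : 0 ≤ 1 - θ := by linarith
      have h2 := Real.rpow_nonneg (NNReal.coe_nonneg CS) (2 * θ / (1 - θ))
      have h3 := Real.rpow_nonneg (show 0 ≤ 1 + θ by linarith) ((1 + θ) / (1 - θ))
      have h4 := Real.rpow_nonneg hν.le (-((1 + θ) / (1 - θ)))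
      positivity
    obtain ⟨t, ht, hst, hfin⟩ := h (fun t => Kc * B t ^ (2 / (1 - θ)))
      (fun t => mul_nonneg hKc0 (Real.rpow_nonneg (hB0 t) _))
      (fun t ht => (hBi t ht).const_mul Kc) (by
        filter_upwards [hwB, ae_mono (Measure.restrict_mono (hsub s hs.1) le_rfl) hmem1,
          ae_restrict_mem measurableSet_Ioo] with t h1 h2 h3
        obtain ⟨a1, a2, a3⟩ := h1
        have k1 := tri_le hm h2 (hmem0 t (hsub s hs.1 h3))
        have k2 := crs_prod hm (u := u t) h2 a1 hq.le hθ hθ1.le (hB0 t) a2 a3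
        have k3 : √(crs (u t) (deriv u t)) ≤ B t * (‖deriv u t‖ ^ (1 - θ) *
            ((CS : ℝ) * ‖deriv (gz (graphW Ω) u) t‖) ^ θ) := by
          refine Real.sqrt_le_iff.2 ⟨?_, k2⟩
          have e1 := Real.rpow_nonneg (norm_nonneg (deriv u t)) (1 - θ)
          have e2 := Real.rpow_nonneg (mul_nonneg (NNReal.coe_nonneg CS)
            (norm_nonneg (deriv (gz (graphW Ω) u) t))) θ
          have e3 := hB0 t
          positivity
        have k4 := young hθ0 hθ1 (norm_nonneg (deriv (gz (graphW Ω) u) t))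
          (norm_nonneg (deriv u t)) (hB0 t) (NNReal.coe_nonneg CS) hν
        calc _ ≤ _ := k1
          _ ≤ ‖deriv (gz (graphW Ω) u) t‖ * (B t * (‖deriv u t‖ ^ (1 - θ) *
            ((CS : ℝ) * ‖deriv (gz (graphW Ω) u) t‖) ^ θ)) :=
              mul_le_mul_of_nonneg_left k3 (norm_nonneg _)
          _ ≤ _ := k4
          _ = _ := by rw [hKc]; ring) t0 ht0
    refine ⟨t, ht, hst, ?_⟩
    rwa [intervalIntegral.integral_const_mul] at hfin
  · intro b hb3 t0 ht0 hcon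
    -- we may assume `0 ≤ b`
    set b' : ℝ := max b 0 with hb'
    have hb'0 : 0 ≤ b' := le_max_right _ _
    have hb'3 : b' < 3 := max_lt hb3 (by norm_num)
    set η : ℝ := (b' / 3 + 1) / 2 with hη
    have hη0 : 0 < η := by positivity
    have hη1 : η < 1 := by rw [hη]; linarith
    have hη2 : b' / (4 * η) < 3 / 4 := by
      rw [div_lt_iff₀ (by positivity), hη]
      linarith
    set s : ℝ := max t0 0 with hs
    have hsI : s ∈ Ico 0 τ := ⟨le_max_right _ _, max_lt ht0 hτ.1⟩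
    obtain ⟨Mc, h⟩ := growth_Λ Fr (hom_tensL hm) hν hτ hF hS hκ hr
      (show (0 : ℝ) < 1 - η by linarith) hsI
    obtain ⟨ε, hε, hbeat⟩ := log_beat (c := b' / (4 * η)) (M := Mc) (L := Real.log (τ - s)) hη2
    have hcont : ∀ t ∈ Ioo s τ, ContinuousOn (fun r => b' / (4 * η) * |τ - r|⁻¹) (Icc s t) := by
      intro t ht
      refine ContinuousOn.mul continuousOn_const (ContinuousOn.inv₀ (by fun_prop) ?_)
      intro r hr'
      have : 0 < τ - r := by linarith [hr'.2, ht.2]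
      exact (abs_pos.2 this.ne').ne'
    obtain ⟨t, ht, hst, hfin⟩ := h (fun r => b' / (4 * η) * |τ - r|⁻¹)
      (fun r => by positivity)
      (fun t ht => ((hcont t ht).integrableOn_Icc).mono_set Ioc_subset_Icc_self) (by
        filter_upwards [ae_mono (Measure.restrict_mono
          (Ioo_subset_Ioo_left (le_max_left t0 0)) le_rfl) hcon,
          ae_mono (Measure.restrict_mono (hsub s hsI.1) le_rfl) hmem1,
          ae_restrict_mem measurableSet_Ioo] with t h1 h2 h3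
        have hh : 0 < τ - t := by linarith [h3.2]
        have k1 := tri_le hm h2 (hmem0 t (hsub s hsI.1 h3))
        have k2 : crs (u t) (deriv u t) ≤ b' * ν / (τ - t) * ‖deriv u t‖ ^ 2 := by
          have e1 : ‖deriv u t‖ ^ 2 = ∫ x in Ω, ‖deriv u t x‖ ^ 2 := by
            rw [← real_inner_self_eq_norm_sq, L2.inner_def]
            exact integral_congr_ae (Eventually.of_forall fun x => real_inner_self_eq_norm_sq _)
          rw [e1, ← integral_const_mul]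
          unfold crs
          refine integral_mono_of_nonneg (Eventually.of_forall fun x => ?_) ?_ ?_
          · have := real_inner_mul_inner_self_le (u t x) (deriv u t x)
            rw [real_inner_self_eq_norm_sq, real_inner_self_eq_norm_sq] at this
            simp only [Pi.zero_apply]
            nlinarith
          · refine Integrable.const_mul ?_ _
            have := L2.integrable_inner (𝕜 := ℝ) (deriv u t) (deriv u t)
            refine this.congr (Eventually.of_forall fun x => ?_)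
            exact real_inner_self_eq_norm_sq _
          · filter_upwards [h1] with x hx
            refine hx.trans ?_
            gcongr
            exact le_max_left _ _
        have k3 : √(crs (u t) (deriv u t)) ≤ √(b' * ν / (τ - t)) * ‖deriv u t‖ := by
          refine Real.sqrt_le_iff.2 ⟨by positivity, ?_⟩
          rw [mul_pow, Real.sq_sqrt (by positivity)]
          exact k2
        set A : ℝ := ‖deriv (gz (graphW Ω) u) t‖ with hA
        set Bn : ℝ := ‖deriv u t‖ with hBn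
        set σ : ℝ := √(b' * ν / (τ - t)) with hσ
        have hσ2 : σ ^ 2 = b' * ν / (τ - t) := Real.sq_sqrt (by positivity)
        have k4 : A * (σ * Bn) ≤ η * ν * A ^ 2 + σ ^ 2 / (4 * η * ν) * Bn ^ 2 := by
          have e1 : 0 ≤ (2 * η * ν * A - σ * Bn) ^ 2 / (4 * η * ν) := by positivity
          have e2 : (2 * η * ν * A - σ * Bn) ^ 2 / (4 * η * ν)
              = η * ν * A ^ 2 - A * (σ * Bn) + σ ^ 2 / (4 * η * ν) * Bn ^ 2 := by
            field_simp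
            ring
          linarith
        have k5 : σ ^ 2 / (4 * η * ν) = b' / (4 * η) * |τ - t|⁻¹ := by
          rw [hσ2, abs_of_pos hh]
          field_simp
        calc _ ≤ _ := k1
          _ ≤ A * (σ * Bn) := mul_le_mul_of_nonneg_left k3 (norm_nonneg _)
          _ ≤ _ := k4
          _ = _ := by rw [k5]; ring) (max s (τ - ε)) (max_lt hsI.2 (by linarith))
    have ht1 : s < t := hst
    have ht2 : t < τ := ht.2
    have htε : τ - t < ε := by linarith [(le_max_right s (τ - ε)).trans_lt ht.1]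
    have hh : 0 < τ - t := by linarith
    have hint : ∫ r in s..t, b' / (4 * η) * |τ - r|⁻¹
        = b' / (4 * η) * (Real.log (τ - s) + Real.log (1 / (τ - t))) := by
      rw [intervalIntegral.integral_const_mul]
      congr 1
      have e1 : ∫ r in s..t, |τ - r|⁻¹ = ∫ r in s..t, (τ - r)⁻¹ := by
        refine intervalIntegral.integral_congr fun r hr' => ?_
        rw [uIcc_of_le ht1.le] at hr'
        show |τ - r|⁻¹ = (τ - r)⁻¹
        rw [abs_of_pos (by linarith [hr'.2])]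
      rw [e1, intervalIntegral.integral_comp_sub_left (fun x => x⁻¹) τ,
        integral_inv_of_pos hh (by linarith), Real.log_div (by linarith) hh.ne', one_div,
        Real.log_inv]
      ring
    rw [hint] at hfin
    exact absurd hfin (not_le.2 (hbeat _ hh htε))

end Pool.Agent.Q219.NS
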